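import Pool.Agent.MWLQ.StmtsA

/-!
# Squad MWLQ (problem MP_23468a_al), row WFC: the common facts for the word `w1`
(twin of MWLE.WFC, author helper92)
-/

set_option autoImplicit false

namespace Pool.Agent.MWLQ.H77

open Pool.Agent.Helper14_MV
open Pool.Agent.Helper2_MV (RR)
open Pool.Agent.MWK (pre)
open Pool.Agent.MWGN (nn Tau gh)
open Pool.Agent.MWGQ (pw Z Gn E0 A0 P0)
open Pool.Agent.MWLE (pin sep con tl tll Sg t1 Fc Fb Fy Fx Fu Fz rz sf k0)
open Pool.Agent.MWLQ

theorem rep_con (a k c : ℕ) (h : con k ≠ c) : (List.replicate a (con k)).count c = 0 := by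
  rw [List.count_replicate, if_neg (by simpa using h)]

theorem con_pin (i k : ℕ) : con i ≠ pin k := by
  unfold pin con
  omega

theorem con_sep (i k : ℕ) : con i ≠ sep k := by
  unfold sep con
  omega

theorem cp_succ (n s r : ℕ) :
    cp n s (r + 1) = cp n s r ++ (pin (s + r) :: List.replicate (n + 1) (con (s + r))) := by
  unfold cp
  rw [List.range_succ, List.flatMap_append]
  simp

theorem cnt_cp_pin (n s r k : ℕ) :
    (cp n s r).count (pin k) = if s ≤ k ∧ k < s + r then 1 else 0 := by
  induction r with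
  | zero =>
    rw [if_neg (by omega)]
    simp [cp]
  | succ r ih =>
    rw [cp_succ, List.count_append, ih, List.count_cons, rep_con _ _ _ (con_pin _ _)]
    unfold pin
    simp only [beq_iff_eq]
    split_ifs <;> first | omega | contradiction

theorem cnt_cp_sep (n s r k : ℕ) : (cp n s r).count (sep k) = 0 := by
  induction r with
  | zero => simp [cp]
  | succ r ih =>
    rw [cp_succ, List.count_append, ih, List.count_cons, rep_con _ _ _ (con_sep _ _)]
    unfold pin sep
    simp only [beq_iff_eq]
    split_ifs <;> first | omega | contradiction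

theorem mem_cp {n s r k : ℕ} (h : s ≤ k ∧ k < s + r) : pin k ∈ cp n s r := by
  rw [← List.count_pos_iff, cnt_cp_pin, if_pos h]
  exact Nat.one_pos

theorem con_mod (k : ℕ) : con k % 5 = 4 := by
  unfold con
  omega

theorem of_mem_rep {a k c : ℕ} (h : c ∈ List.replicate a (con k)) : c % 5 = 4 := by
  rw [(List.mem_replicate.1 h).2]
  exact con_mod k

theorem of_mem_cp {n s r c : ℕ} (h : c ∈ cp n s r) :
    c % 5 = 4 ∨ ∃ k, s ≤ k ∧ k < s + r ∧ c = pin k := by
  unfold cp at h
  obtain ⟨i, hi, hc⟩ := List.mem_flatMap.1 h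
  rw [List.mem_range] at hi
  rcases List.mem_cons.1 hc with rfl | hc
  · exact Or.inr ⟨s + i, by omega, by omega, rfl⟩
  · exact Or.inl (of_mem_rep hc)

theorem tl_cons (a : ℕ) (σ : List ℕ) : tl (a :: σ) = sep a :: pin a :: tl σ := rfl

theorem cnt_tl_pin (σ : List ℕ) (k : ℕ) : (tl σ).count (pin k) = σ.count k := by
  induction σ with
  | nil => rfl
  | cons a σ ih =>
    rw [tl_cons, List.count_cons, List.count_cons, ih, List.count_cons]
    unfold pin sep
    simp only [beq_iff_eq]
    split_ifs <;> first | omega | contradiction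

theorem cnt_tl_sep (σ : List ℕ) (k : ℕ) : (tl σ).count (sep k) = σ.count k := by
  induction σ with
  | nil => rfl
  | cons a σ ih =>
    rw [tl_cons, List.count_cons, List.count_cons, ih, List.count_cons]
    unfold pin sep
    simp only [beq_iff_eq]
    split_ifs <;> first | omega | contradiction

theorem cnt_wb_pin {n m k : ℕ} (hk : k ≤ 2 * m + 2) :
    (wb n m false false).count (pin k) = 1 := by
  unfold wb N0 Nx
  simp only [List.count_append, List.count_cons, List.count_nil, cnt_cp_pin, Bool.false_eq_true,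
    if_false, beq_iff_eq, rep_con _ _ _ (con_pin _ _)]
  unfold pin
  split_ifs <;> first | omega | contradiction

theorem cnt_wb_sep (n m k : ℕ) : (wb n m false false).count (sep k) = 0 := by
  unfold wb N0 Nx
  simp only [List.count_append, List.count_cons, List.count_nil, cnt_cp_sep, Bool.false_eq_true,
    if_false, beq_iff_eq, rep_con _ _ _ (con_sep _ _)]
  unfold pin sep
  split_ifs <;> first | omega | contradiction

theorem mem_N0 {n m j : ℕ} (h : j ≤ m) : pin j ∈ N0 n m := by
  unfold N0
  by_cases h0 : j = 0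
  · rw [h0]
    exact List.mem_cons_of_mem _ (List.mem_append_right _ (by simp))
  · have := mem_cp (n := n) (s := 1) (r := m) (k := j) (by omega)
    exact List.mem_cons_of_mem _ (List.mem_append_right _ (List.mem_cons_of_mem _ this))

theorem wfc (prc : PrcStmt) : WfcStmt := by
  intro n σ τ m hS
  obtain ⟨p0, p1, p2, p3, p4, p5⟩ := prc n σ m
  have c1 : ∀ k ≤ 2 * m + 2, σ.count k = 1 := fun k hk =>
    List.count_eq_one_of_mem hS.nd ((hS.me k).2 hk)
  have hW : ∀ c, (wd n σ m false false).count c = (wb n m false false).count c +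
      (tl σ).count c :=
    fun c => List.count_append
  have hne : σ ≠ [] := by
    rintro rfl
    have := (hS.me 0).2 (Nat.zero_le _)
    simp at this
  have q5 : ∀ k ≤ 2 * m + 2, ∀ c, nn (wd n σ m false false) c (sep k) =
      (wb n m false false).count c + (tl (pre σ k)).count c := by
    intro k hk c
    unfold nn
    rw [p5 k ((hS.me k).2 hk), List.count_append]
  have cpre : ∀ j k, j ∈ pre σ k → (pre σ k).count j = 1 := by
    intro j k h
    have h1 : (pre σ k).Nodup := (List.takeWhile_sublist _).nodup hS.nd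
    exact List.count_eq_one_of_mem h1 h
  refine ⟨?_, ?_, ?_, ?_, ?_, ?_, ?_, ?_, ?_⟩
  · intro c hc
    unfold wd wb N0 Nx at hc
    simp only [List.mem_append, List.mem_cons, Bool.false_eq_true, if_false, List.not_mem_nil,
      or_false, false_or] at hc
    rcases hc with ((rfl | h | rfl | h) | rfl | (h | rfl | rfl | h | rfl) | rfl) | h
    · exact Or.inr (Or.inl rfl)
    · exact Or.inr (Or.inr (Or.inl (of_mem_rep h)))
    · exact Or.inr (Or.inr (Or.inr ⟨0, by omega, Or.inl rfl⟩))
    · rcases of_mem_cp h with h | ⟨k, h1, h2, rfl⟩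
      · exact Or.inr (Or.inr (Or.inl h))
      · exact Or.inr (Or.inr (Or.inr ⟨k, by omega, Or.inl rfl⟩))
    · exact Or.inl rfl
    · exact Or.inr (Or.inr (Or.inl (of_mem_rep h)))
    · exact Or.inr (Or.inr (Or.inr ⟨m + 1, by omega, Or.inl rfl⟩))
    · exact Or.inr (Or.inl rfl)
    · rcases of_mem_cp h with h | ⟨k, h1, h2, rfl⟩
      · exact Or.inr (Or.inr (Or.inl h))
      · exact Or.inr (Or.inr (Or.inr ⟨k, by omega, Or.inl rfl⟩))
    · exact Or.inr (Or.inr (Or.inr ⟨2 * m + 2, by omega, Or.inl rfl⟩))
    · exact Or.inl rfl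
    · unfold tl at h
      obtain ⟨k, hk, h⟩ := List.mem_flatMap.1 h
      simp only [List.mem_cons, List.not_mem_nil, or_false] at h
      exact Or.inr (Or.inr (Or.inr ⟨k, (hS.me k).1 hk, h.symm⟩))
  · intro k hk
    rw [hW, cnt_wb_sep, cnt_tl_sep, c1 k hk]
  · intro k hk
    rw [hW, cnt_wb_pin hk, cnt_tl_pin, c1 k hk]
  · intro k hk
    rw [q5 k hk, cnt_wb_pin hk, cnt_tl_pin,
      List.count_eq_zero.2 (Pool.Agent.MWK.not_mem_pre σ k)]
  · intro k hk
    unfold nn
    rw [p4 hne, cnt_wb_pin hk]
  · intro j k hj hk h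
    rw [q5 k hk, hW, cnt_tl_pin, cnt_tl_pin, cpre j k h, c1 j hj]
  · intro j k hj hk h
    rw [q5 j hj, cnt_wb_pin hk, cnt_tl_pin,
      List.count_eq_zero.2 (Pool.Agent.MWK.pre_asymm h)]
  · intro j k hj hk h
    rw [q5 k hk, cnt_wb_sep, cnt_tl_sep, cpre j k h]
  · intro j k hjk hk
    rcases Nat.lt_or_ge k (m + 1) with h | h
    · obtain ⟨i, rfl⟩ : ∃ i, k = 1 + i := ⟨k - 1, by omega⟩
      rw [p1 i (by omega)]
      by_cases h0 : j = 0
      · rw [h0]
        exact List.mem_cons_of_mem _ (List.mem_append_right _ (by simp))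
      · have := mem_cp (n := n) (s := 1) (r := i) (k := j) (by omega)
        exact List.mem_cons_of_mem _ (List.mem_append_right _ (List.mem_cons_of_mem _ this))
    · rcases Nat.lt_or_ge k (m + 2) with h' | h'
      · have : k = m + 1 := by omega
        subst this
        rw [p2]
        exact List.mem_append_left _ (mem_N0 (by omega))
      · obtain ⟨i, rfl⟩ : ∃ i, k = m + 2 + i := ⟨k - (m + 2), by omega⟩
        rw [p3 i (by omega)]
        rcases Nat.lt_or_ge j (m + 1) with g | g
        · exact List.mem_append_left _ (mem_N0 (by omega))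
        · refine List.mem_append_right _ (List.mem_cons_of_mem _ (List.mem_append_right _ ?_))
          rcases Nat.lt_or_ge j (m + 2) with g' | g'
          · have : j = m + 1 := by omega
            rw [this]
            simp
          · have := mem_cp (n := n) (s := m + 2) (r := i) (k := j) (by omega)
            exact List.mem_cons_of_mem _ (List.mem_cons_of_mem _ this)

end Pool.Agent.MWLQ.H77
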